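import Pool.Agent.W516.MTZ.Stm
import Pool.Agent.H340R2.LW

/-!
# Odd zeta values and the periods of the extensions
-/

set_option autoImplicit false

namespace Pool.Agent.W67.MTZ

open Pool.Agent.W516.MTZ

theorem trans_two_pi_I : Transcendental ℚ ((2 : ℂ) * Real.pi * Complex.I) := by
  intro h
  apply Pool.Agent.H340R2.LW.transcendental_pi_complex
  have h1 : IsAlgebraic ℚ ((2 : ℂ) * Real.pi * Complex.I * Complex.I) :=
    h.mul Pool.Agent.H340R2.LW.isAlgebraic_I
  have h2 : IsAlgebraic ℚ ((2 : ℂ) * Real.pi * Complex.I * Complex.I *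
      algebraMap ℚ ℂ (-1 / 2)) := h1.mul (isAlgebraic_algebraMap _)
  have e : (2 : ℂ) * Real.pi * Complex.I * Complex.I * algebraMap ℚ ℂ (-1 / 2) = Real.pi := by
    have e1 : algebraMap ℚ ℂ (-1 / 2) = -1 / 2 := by
      rw [eq_ratCast]
      push_cast
      ring
    rw [e1, mul_assoc _ Complex.I Complex.I, Complex.I_mul_I]
    ring
  rw [e] at h2
  exact h2

theorem zeta_real {n : ℕ} (hn : 1 < n) : ∃ r : ℝ, riemannZeta n = (r : ℂ) := by
  refine ⟨∑' k : ℕ, 1 / (k : ℝ) ^ n, ?_⟩
  rw [zeta_nat_eq_tsum_of_gt_one hn, Complex.ofReal_tsum]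
  congr 1
  funext k
  push_cast
  rfl

theorem pow_imag {n : ℕ} (hn : Odd n) :
    ∃ r : ℝ, ((2 : ℂ) * Real.pi * Complex.I) ^ n = (r : ℂ) * Complex.I := by
  obtain ⟨k, rfl⟩ := hn
  refine ⟨(2 * Real.pi) ^ (2 * k + 1) * (-1) ^ k, ?_⟩
  rw [mul_pow, pow_succ Complex.I, pow_mul Complex.I, Complex.I_sq]
  push_cast
  ring

theorem T_ZETA : StZeta := by
  intro m X _ _ _ _ M p hdeg hinj hpt hps
  refine ⟨?_, ?_, ?_⟩
  · rw [hpt]
    exact trans_two_pi_I
  · intro hI x q hq
    have h := hI (M.deg x) (Pi.single x 1) q 0 (by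
      intro y hy
      by_cases hxy : y = x
      · rw [hxy]
      · exact absurd (Pi.single_eq_of_ne hxy _) hy) (by
      rw [Finset.sum_eq_single x]
      · rw [Pi.single_eq_same, hps, hq]
        push_cast
        ring
      · intro y _ hy
        rw [Pi.single_eq_of_ne hy]
        simp
      · intro hx
        exact absurd (Finset.mem_univ x) hx)
    have h2 := congrFun h x
    rw [Pi.single_eq_same] at h2
    exact one_ne_zero h2
  · intro hz n c a b hc hsum
    by_contra hne
    obtain ⟨x, hx⟩ := Function.ne_iff.mp hne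
    have hx' : c x ≠ 0 := hx
    have hxn : M.deg x = n := hc x hx'
    have hy : ∀ y, y ≠ x → c y = 0 := by
      intro y hyx
      by_contra hcy
      exact hyx (hinj ((hc y hcy).trans hxn.symm))
    rw [Finset.sum_eq_single x (by
      intro y _ hyx
      rw [hy y hyx]
      simp) (by
      intro hx0
      exact absurd (Finset.mem_univ x) hx0), hps, hpt, ← hxn] at hsum
    obtain ⟨hodd, h3⟩ := hdeg x
    obtain ⟨r, hr⟩ := zeta_real (n := M.deg x) (by omega)
    obtain ⟨s, hs⟩ := pow_imag hodd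
    rw [hr, hs] at hsum
    have hre := congrArg Complex.re hsum
    have hre2 : (c x : ℝ) * r = a := by
      have e1 : ((c x : ℂ) * (r : ℂ)).re = (c x : ℝ) * r := by
        have : ((c x : ℂ) * (r : ℂ)) = (((c x : ℝ) * r : ℝ) : ℂ) := by push_cast; rfl
        rw [this, Complex.ofReal_re]
      have e2 : ((a : ℂ) + b * ((s : ℂ) * Complex.I)).re = a := by
        have : ((a : ℂ) + b * ((s : ℂ) * Complex.I)) =
            ((a : ℝ) : ℂ) + (((b : ℝ) * s : ℝ) : ℂ) * Complex.I := by push_cast; ring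
        rw [this]
        simp
      rw [e1, e2] at hre
      exact hre
    apply hz x (a / c x)
    rw [hr]
    have hcx : (c x : ℝ) ≠ 0 := by exact_mod_cast hx'
    have e3 : r = (a : ℝ) / c x := by
      rw [eq_div_iff hcx, mul_comm]
      exact hre2
    rw [e3]
    push_cast
    rfl

end Pool.Agent.W67.MTZ
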